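import Pool.Agent.Helper69.UX.StB

/-!
# Project UX (MP_e12aa9_pr), module CNM: counting maps with given fibre sizes
-/

set_option autoImplicit false

namespace Pool.Agent.Helper73.UX

open Finset Filter Pool.Agent.Helper82.CN Pool.Agent.Helper11.PV Pool.Agent.Helper69.VX
  Pool.Agent.Helper69.UX

theorem cnm_fact (s : ℕ) : ∀ N : ℕ, s ≤ N →
    (N : ℝ) ^ s * ((N - s).factorial : ℝ) ≤ (N.factorial : ℝ) * Real.exp 1 ^ s := by
  induction s with
  | zero => intro N _; simp
  | succ s ih =>
    intro N hN
    obtain ⟨M, rfl⟩ : ∃ M, N = M + 1 := ⟨N - 1, by omega⟩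
    have hM : s ≤ M := by omega
    have h1 := ih M hM
    have h2 : M + 1 - (s + 1) = M - s := by omega
    have he : (1 : ℝ) ≤ Real.exp 1 := Real.one_le_exp (by norm_num)
    have h3 : ((M : ℝ) + 1) ^ s ≤ Real.exp 1 * (M : ℝ) ^ s := by
      rcases Nat.eq_zero_or_pos M with h0 | h0
      · subst h0
        have : s = 0 := by omega
        subst this
        simpa using he
      · have hMp : (0 : ℝ) < M := by exact_mod_cast h0
        have h4 : (M : ℝ) + 1 ≤ M * Real.exp (1 / M) := by
          have h5 := Real.add_one_le_exp (1 / (M : ℝ))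
          have h6 : (M : ℝ) * (1 / M + 1) ≤ M * Real.exp (1 / M) :=
            mul_le_mul_of_nonneg_left h5 hMp.le
          have h7 : (M : ℝ) * (1 / M + 1) = M + 1 := by field_simp; ring
          linarith
        calc ((M : ℝ) + 1) ^ s ≤ (M * Real.exp (1 / M)) ^ s := pow_le_pow_left₀ (by positivity) h4 s
          _ = (M : ℝ) ^ s * Real.exp (s * (1 / M)) := by
              rw [mul_pow, ← Real.exp_nat_mul]
          _ ≤ (M : ℝ) ^ s * Real.exp 1 := by
              apply mul_le_mul_of_nonneg_left _ (by positivity)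
              apply Real.exp_le_exp.2
              rw [mul_one_div, div_le_one hMp]
              exact_mod_cast hM
          _ = Real.exp 1 * (M : ℝ) ^ s := mul_comm _ _
    rw [h2, Nat.factorial_succ]
    push_cast
    have hf : (0 : ℝ) ≤ ((M - s).factorial : ℝ) := Nat.cast_nonneg _
    calc ((M : ℝ) + 1) ^ (s + 1) * ((M - s).factorial : ℝ)
        = (M + 1) * (((M : ℝ) + 1) ^ s * ((M - s).factorial : ℝ)) := by ring
      _ ≤ (M + 1) * (Real.exp 1 * (M : ℝ) ^ s * ((M - s).factorial : ℝ)) := by
          apply mul_le_mul_of_nonneg_left _ (by positivity)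
          exact mul_le_mul_of_nonneg_right h3 hf
      _ = (M + 1) * Real.exp 1 * ((M : ℝ) ^ s * ((M - s).factorial : ℝ)) := by ring
      _ ≤ (M + 1) * Real.exp 1 * ((M.factorial : ℝ) * Real.exp 1 ^ s) := by
          apply mul_le_mul_of_nonneg_left h1 (by positivity)
      _ = ((M : ℝ) + 1) * (M.factorial : ℝ) * Real.exp 1 ^ (s + 1) := by ring

open Classical in
/-- Permutations which preserve a function on a set. -/
theorem cnm_perm {V L : Type} [Fintype V] [DecidableEq V] [DecidableEq L] (f : V → L)
    (T : Finset V) :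
    ((univ : Finset (Equiv.Perm V)).filter (fun g => ∀ x ∈ T, f (g x) = f x)).card ≤
      (Fintype.card V - T.card).factorial * ∏ x ∈ T, (fib f (f x)).card := by
  have ht : (Fintype.piFinset (fun x : {x // x ∈ T} => fib f (f x.1))).card =
      ∏ x ∈ T, (fib f (f x)).card := by
    rw [Fintype.card_piFinset]
    exact Finset.prod_coe_sort T (fun x => (fib f (f x)).card)
  rw [← ht]
  apply Finset.card_le_mul_card_image_of_maps_to
    (f := fun (g : Equiv.Perm V) (x : {x // x ∈ T}) => g x.1)
  · intro g hg
    rw [Finset.mem_filter] at hg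
    rw [Fintype.mem_piFinset]
    intro x
    rw [fib, Finset.mem_filter]
    exact ⟨Finset.mem_univ _, hg.2 x.1 x.2⟩
  · intro h _
    rcases Finset.eq_empty_or_nonempty (((univ : Finset (Equiv.Perm V)).filter
        (fun g => ∀ x ∈ T, f (g x) = f x)).filter
          (fun g => (fun (x : {x // x ∈ T}) => g x.1) = h)) with h0 | ⟨g0, hg0⟩
    · rw [h0]
      simp
    · have hg0' : (fun (x : {x // x ∈ T}) => g0 x.1) = h := (Finset.mem_filter.1 hg0).2
      have hcard : Fintype.card {k : Equiv.Perm V // ∀ a, ¬ (a ∉ T) → k a = a} =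
          (Fintype.card V - T.card).factorial := by
        rw [← Fintype.card_congr (Equiv.Perm.subtypeEquivSubtypePerm (fun a => a ∉ T)),
          Fintype.card_perm, Fintype.card_subtype_compl, Fintype.card_coe]
      rw [← hcard, ← Fintype.card_coe]
      refine Fintype.card_le_of_injective
        (fun g => (⟨g0⁻¹ * g.1, ?_⟩ : {k : Equiv.Perm V // ∀ a, ¬ (a ∉ T) → k a = a})) ?_
      · intro a ha
        have ha' : a ∈ T := not_not.1 ha
        have h1 : (fun (x : {x // x ∈ T}) => g.1 x.1) = h := (Finset.mem_filter.1 g.2).2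
        have h2 : g.1 a = g0 a := by
          have h3 := congrFun (h1.trans hg0'.symm) ⟨a, ha'⟩
          exact h3
        rw [Equiv.Perm.mul_apply, h2]
        exact Equiv.symm_apply_apply g0 a
      · intro g g' hgg
        have h1 := congrArg Subtype.val hgg
        simp only at h1
        exact Subtype.ext (mul_left_cancel h1)

open Classical in
theorem hCNM : StCNM := by
  intro V L _ _ _ _ v B hV hB
  set S := ((univ : Finset (V → L)).filter
    (fun f => ∀ i, (fib f i).card = v i ∧ B i ⊆ fib f i)) with hS
  have hN : (0 : ℝ) < Fintype.card V := by exact_mod_cast hV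
  rcases Finset.eq_empty_or_nonempty S with h0 | ⟨f0, hf0⟩
  · rw [h0, Finset.card_empty, Nat.cast_zero, zero_mul]
    positivity
  have hf0' : ∀ i, (fib f0 i).card = v i ∧ B i ⊆ fib f0 i := (Finset.mem_filter.1 hf0).2
  set T := (univ : Finset L).biUnion B with hT
  have hTc : T.card = ∑ i, (B i).card := by
    rw [hT, Finset.card_biUnion]
    intro i _ j _ hij
    exact hB i j hij
  have hf0T : ∀ i, ∀ x ∈ B i, f0 x = i := by
    intro i x hx
    have h1 := (hf0' i).2 hx
    rw [fib, Finset.mem_filter] at h1
    exact h1.2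
  -- the number of maps times the number of permutations of the fibres
  have h1 : S.card * ∏ i, (v i).factorial ≤
      ((univ : Finset (Equiv.Perm V)).filter (fun g : Equiv.Perm V => ∀ x ∈ T, f0 (g x) = f0 x)).card := by
    have h2 : ∀ f ∈ S, ∏ i, (v i).factorial ≤
        (((univ : Finset (Equiv.Perm V)).filter (fun g : Equiv.Perm V => ∀ x ∈ T, f0 (g x) = f0 x)).filter
          (fun g : Equiv.Perm V => f0 ∘ (g : V → V) = f)).card := by
      intro f hf
      have hf' : ∀ i, (fib f i).card = v i ∧ B i ⊆ fib f i := (Finset.mem_filter.1 hf).2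
      have hc : ∀ i, Nonempty ({a // f a = i} ≃ {b // f0 b = i}) := by
        intro i
        rw [← Fintype.card_eq, Fintype.card_subtype, Fintype.card_subtype]
        have h3 := (hf' i).1
        have h4 := (hf0' i).1
        rw [fib] at h3 h4
        rw [h3, h4]
      let g1 : Equiv.Perm V := Equiv.ofFiberEquiv (fun i => (hc i).some)
      have hg1 : ∀ a, f0 (g1 a) = f a := fun a => Equiv.ofFiberEquiv_map _ a
      have h5 : ∏ i, (v i).factorial = Fintype.card {k : Equiv.Perm V // f0 ∘ k = f0} := by
        rw [DomMulAct.stabilizer_card]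
        apply Finset.prod_congr rfl
        intro i _
        rw [Fintype.card_subtype]
        have h4 := (hf0' i).1
        rw [fib] at h4
        rw [h4]
      rw [h5, ← Fintype.card_coe]
      refine Fintype.card_le_of_injective (fun k => ⟨k.1 * g1, ?_⟩) ?_
      · have h6 : ∀ a, f0 (k.1 (g1 a)) = f a := by
          intro a
          have h7 := congrFun k.2 (g1 a)
          rw [Function.comp_apply] at h7
          rw [h7, hg1]
        rw [Finset.mem_filter, Finset.mem_filter]
        refine ⟨⟨Finset.mem_univ _, ?_⟩, ?_⟩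
        · intro x hx
          rw [hT, Finset.mem_biUnion] at hx
          obtain ⟨i, _, hxi⟩ := hx
          rw [Equiv.Perm.mul_apply, h6, hf0T i x hxi]
          have h8 := (hf' i).2 hxi
          rw [fib, Finset.mem_filter] at h8
          exact h8.2
        · funext a
          rw [Function.comp_apply, Equiv.Perm.mul_apply, h6]
      · intro k k' hk
        have h9 := congrArg Subtype.val hk
        simp only at h9
        exact Subtype.ext (mul_right_cancel h9)
    calc S.card * ∏ i, (v i).factorial = ∑ _f ∈ S, ∏ i, (v i).factorial := by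
          rw [Finset.sum_const, smul_eq_mul]
      _ ≤ ∑ f ∈ S, (((univ : Finset (Equiv.Perm V)).filter
            (fun g : Equiv.Perm V => ∀ x ∈ T, f0 (g x) = f0 x)).filter (fun g : Equiv.Perm V => f0 ∘ (g : V → V) = f)).card :=
          Finset.sum_le_sum h2
      _ ≤ ∑ f : V → L, (((univ : Finset (Equiv.Perm V)).filter
            (fun g : Equiv.Perm V => ∀ x ∈ T, f0 (g x) = f0 x)).filter (fun g : Equiv.Perm V => f0 ∘ (g : V → V) = f)).card :=
          Finset.sum_le_sum_of_subset (Finset.subset_univ _)
      _ = _ := (Finset.card_eq_sum_card_fiberwise (fun g _ => Finset.mem_univ _)).symm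
  have h3 := cnm_perm f0 T
  have h4 : ∏ x ∈ T, (fib f0 (f0 x)).card = ∏ i, v i ^ (B i).card := by
    rw [hT, Finset.prod_biUnion]
    · apply Finset.prod_congr rfl
      intro i _
      rw [← Finset.prod_const]
      apply Finset.prod_congr rfl
      intro x hx
      rw [hf0T i x hx, (hf0' i).1]
    · intro i _ j _ hij
      exact hB i j hij
  have h5 := cnm_fact T.card (Fintype.card V) (Finset.card_le_univ T)
  have h6 : ((S.card * ∏ i, (v i).factorial : ℕ) : ℝ) ≤
      (((Fintype.card V - T.card).factorial * ∏ i, v i ^ (B i).card : ℕ) : ℝ) := by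
    exact_mod_cast h1.trans (h3.trans_eq (by rw [h4]))
  push_cast at h6
  refine h6.trans ?_
  rw [← hTc, div_pow]
  have h7 : (0 : ℝ) ≤ ∏ i, (v i : ℝ) ^ (B i).card := by positivity
  have h8 : ((Fintype.card V - T.card).factorial : ℝ) ≤
      ((Fintype.card V).factorial : ℝ) * (Real.exp 1 ^ T.card / (Fintype.card V : ℝ) ^ T.card) := by
    rw [← mul_div_assoc, le_div_iff₀ (by positivity)]
    linarith
  calc ((Fintype.card V - T.card).factorial : ℝ) * ∏ i, (v i : ℝ) ^ (B i).card
      ≤ (((Fintype.card V).factorial : ℝ) *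
          (Real.exp 1 ^ T.card / (Fintype.card V : ℝ) ^ T.card)) *
            ∏ i, (v i : ℝ) ^ (B i).card := mul_le_mul_of_nonneg_right h8 h7
    _ = _ := by ring

end Pool.Agent.Helper73.UX
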