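import Pool.Agent.Helper69.UX.StD

/-! Project UX (MP_e12aa9_pr), module NIB -/

set_option autoImplicit false

namespace Pool.Agent.Helper73.UX

open Finset Filter Pool.Agent.Helper82.CN Pool.Agent.Helper11.PV Pool.Agent.Helper69.VX
  Pool.Agent.Helper69.UX

theorem sum_card_Pt {n : ℕ} {P : Finset (Finset (Fin n))} (hP : P ∈ Pt (Fin n)) :
    ∑ C ∈ P, C.card = n := by
  classical
  simp only [Pt, mem_filter, mem_univ, true_and] at hP
  obtain ⟨h1, h2, h3⟩ := hP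
  have h5 : P.biUnion id = univ := by
    ext v
    simp only [mem_biUnion, id, mem_univ, iff_true]
    obtain ⟨A, hA, hv⟩ := h3 v
    exact ⟨A, hA, hv⟩
  have h4 : (P.biUnion id).card = ∑ C ∈ P, (id C).card :=
    Finset.card_biUnion (fun A hA B hB hAB => h2 A hA B hB hAB)
  rw [h5, card_univ, Fintype.card_fin] at h4
  simpa using h4.symm

theorem D_bd {n T h t₀ : ℕ} {p C₀ s K₀ : ℝ} {P I : Finset (Finset (Fin n))}
    (hS : Sml p C₀ s K₀ n T P) (hI : I ⊆ P) (hk : P.card = I.card + t₀) (hh : h ≤ T) :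
    ∑ C ∈ P \ I, ((T - C.card : ℕ) : ℝ) ≤
      t₀ * h + C₀ * (s + K₀ * Real.exp (-(bb p * (h : ℝ) ^ 2 / 4))) := by
  classical
  obtain ⟨hP, hc, hK, hKT, hPT, hsm⟩ := hS
  have h1 : ∀ C ∈ P \ I, ((T - C.card : ℕ) : ℝ) ≤
      h + (if h ≤ T - C.card then ((T - C.card : ℕ) : ℝ) ^ 2 else 0) := by
    intro C _
    split_ifs with hif
    · have h2 : ((T - C.card : ℕ) : ℝ) ≤ ((T - C.card : ℕ) : ℝ) ^ 2 := by
        have h3 : (T - C.card : ℕ) ≤ (T - C.card : ℕ) ^ 2 := Nat.le_self_pow (by norm_num) _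
        exact_mod_cast h3
      have h4 : (0 : ℝ) ≤ (h : ℝ) := Nat.cast_nonneg h
      linarith
    · push Not at hif
      have h2 : ((T - C.card : ℕ) : ℝ) ≤ (h : ℝ) := by exact_mod_cast hif.le
      linarith
  have h2 : ∑ C ∈ P \ I, ((T - C.card : ℕ) : ℝ) ≤
      ∑ C ∈ P \ I, ((h : ℝ) + (if h ≤ T - C.card then ((T - C.card : ℕ) : ℝ) ^ 2 else 0)) :=
    Finset.sum_le_sum h1
  rw [Finset.sum_add_distrib, Finset.sum_const, nsmul_eq_mul] at h2
  have h3 : (P \ I).card = t₀ := by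
    rw [Finset.card_sdiff_of_subset hI, hk]; omega
  rw [h3] at h2
  have h4 : ∑ C ∈ P \ I, (if h ≤ T - C.card then ((T - C.card : ℕ) : ℝ) ^ 2 else 0) ≤
      ∑ C ∈ P, (if h ≤ T - C.card then ((T - C.card : ℕ) : ℝ) ^ 2 else 0) := by
    apply Finset.sum_le_sum_of_subset_of_nonneg Finset.sdiff_subset
    intro C _ _
    split_ifs
    · positivity
    · exact le_refl 0
  have h5 := hsm h hh
  rw [Finset.sum_filter] at h5
  linarith

theorem choose_bd (k t : ℕ) (ht : 1 ≤ t) (x : ℝ) (hx : (k : ℝ) ≤ 2 * Real.exp x * t) :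
    ((k.choose t : ℕ) : ℝ) ≤ Real.exp (t * (x + 2)) := by
  have h1 : ((k.choose t : ℕ) : ℝ) ≤ (k : ℝ) ^ t / (t.factorial : ℝ) := Nat.choose_le_pow_div t k
  have ht0 : (0 : ℝ) < t := by exact_mod_cast ht
  have h2 : (t : ℝ) ^ t / (t.factorial : ℝ) ≤ Real.exp t :=
    Real.pow_div_factorial_le_exp (t : ℝ) ht0.le t
  have h3 : (k : ℝ) ^ t ≤ (2 * Real.exp x * t) ^ t := pow_le_pow_left₀ (Nat.cast_nonneg k) hx t
  have hf : (0 : ℝ) < (t.factorial : ℝ) := by exact_mod_cast Nat.factorial_pos t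
  have he : (2 : ℝ) ≤ Real.exp 1 := by linarith [Real.exp_one_gt_d9]
  calc ((k.choose t : ℕ) : ℝ) ≤ (k : ℝ) ^ t / (t.factorial : ℝ) := h1
    _ ≤ (2 * Real.exp x * t) ^ t / (t.factorial : ℝ) := by gcongr
    _ = (2 * Real.exp x) ^ t * ((t : ℝ) ^ t / (t.factorial : ℝ)) := by rw [mul_pow]; ring
    _ ≤ (Real.exp 1 * Real.exp x) ^ t * Real.exp t := by gcongr
    _ = Real.exp (t * (x + 2)) := by
        rw [← Real.exp_add, ← Real.exp_nat_mul, ← Real.exp_add]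
        congr 1
        ring

theorem main_real (L lam l La t₀ s N T3 D C₀ C₁ C₉ r : ℝ) (hL : 0 < L) (hL2 : L ≤ 2)
    (hlam : 2 ≤ lam) (hl : l ≤ lam) (hC₀ : 0 ≤ C₀) (hC₁ : 0 ≤ C₁) (hC₉ : 0 ≤ C₉)
    (hl2 : 35 + 2 * C₁ + 4 * C₀ + 5 * C₉ ≤ l) (hLa : l - 2 ≤ La) (ht : 0 ≤ t₀)
    (hr : L * r ^ 2 = 4 * l)
    (hD : D ≤ t₀ * (r + 1 + 2 * C₀) + C₀ * s) (hN : N * L ≤ 5 * t₀ * lam)
    (hs : T3 + C₁ * (s + 1) * lam ^ 2 + C₀ * s * lam + C₉ * s ≤ N) :
    T3 + t₀ * (l + 2) + (-(3 / (2 * L)) * t₀ * La * lam + C₁ * t₀ * lam +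
      C₁ * (s + 1) * lam ^ 2 + D * lam) + C₉ * (N + s) ≤ -(3 * N) := by
  have hlam0 : 0 < lam := by linarith [hlam]
  have htl : 0 ≤ t₀ * lam := mul_nonneg ht hlam0.le
  have hLr : L * r ≤ l / 2 + 4 := by
    have h1 : 0 ≤ L / 8 * (r - 4) ^ 2 := by positivity
    nlinarith
  -- multiply by `L`
  have key : L * (T3 + t₀ * (l + 2) + (-(3 / (2 * L)) * t₀ * La * lam + C₁ * t₀ * lam +
      C₁ * (s + 1) * lam ^ 2 + D * lam) + C₉ * (N + s)) ≤ L * (-(3 * N)) := by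
    have e1 : L * (T3 + t₀ * (l + 2) + (-(3 / (2 * L)) * t₀ * La * lam + C₁ * t₀ * lam +
      C₁ * (s + 1) * lam ^ 2 + D * lam) + C₉ * (N + s)) =
      L * (T3 + C₁ * (s + 1) * lam ^ 2 + C₀ * s * lam + C₉ * s) +
      (L * (t₀ * (l + 2)) - (3 / 2) * (t₀ * lam) * La + L * C₁ * (t₀ * lam) +
        L * ((D - C₀ * s) * lam) + C₉ * (N * L)) := by
      field_simp
      ring
    rw [e1]
    have a1 : L * (T3 + C₁ * (s + 1) * lam ^ 2 + C₀ * s * lam + C₉ * s) ≤ L * N :=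
      mul_le_mul_of_nonneg_left hs hL.le
    have a2 : L * (t₀ * (l + 2)) ≤ 4 * (t₀ * lam) := by
      have b1 : t₀ * (l + 2) ≤ t₀ * (2 * lam) := mul_le_mul_of_nonneg_left (by linarith) ht
      have b2 : L * (t₀ * (l + 2)) ≤ L * (t₀ * (2 * lam)) := mul_le_mul_of_nonneg_left b1 hL.le
      have b3 : L * (t₀ * (2 * lam)) ≤ 2 * (t₀ * (2 * lam)) :=
        mul_le_mul_of_nonneg_right hL2 (by linarith)
      linarith
    have a3 : (3 / 2) * (t₀ * lam) * (l - 2) ≤ (3 / 2) * (t₀ * lam) * La :=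
      mul_le_mul_of_nonneg_left hLa (by linarith)
    have a4 : L * C₁ * (t₀ * lam) ≤ 2 * C₁ * (t₀ * lam) :=
      mul_le_mul_of_nonneg_right (mul_le_mul_of_nonneg_right hL2 hC₁) htl
    have a5 : L * ((D - C₀ * s) * lam) ≤ (l / 2 + 4 + 2 + 4 * C₀) * (t₀ * lam) := by
      have b1 : (D - C₀ * s) * lam ≤ (t₀ * (r + 1 + 2 * C₀)) * lam :=
        mul_le_mul_of_nonneg_right (by linarith) hlam0.le
      have b2 : L * ((D - C₀ * s) * lam) ≤ L * ((t₀ * (r + 1 + 2 * C₀)) * lam) :=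
        mul_le_mul_of_nonneg_left b1 hL.le
      have b3 : L * ((t₀ * (r + 1 + 2 * C₀)) * lam) = (L * r + L * (1 + 2 * C₀)) * (t₀ * lam) := by
        ring
      have b4 : L * (1 + 2 * C₀) ≤ 2 * (1 + 2 * C₀) := mul_le_mul_of_nonneg_right hL2 (by linarith)
      have b5 : (L * r + L * (1 + 2 * C₀)) * (t₀ * lam) ≤
          (l / 2 + 4 + 2 + 4 * C₀) * (t₀ * lam) :=
        mul_le_mul_of_nonneg_right (by linarith) htl
      linarith
    have a6 : C₉ * (N * L) ≤ C₉ * (5 * t₀ * lam) := mul_le_mul_of_nonneg_left hN hC₉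
    have a7 : (35 + 2 * C₁ + 4 * C₀ + 5 * C₉) * (t₀ * lam) ≤ l * (t₀ * lam) :=
      mul_le_mul_of_nonneg_right hl2 htl
    have a8 : L * N ≤ 5 * (t₀ * lam) := by linarith [hN]
    nlinarith
  exact le_of_mul_le_mul_left key hL


theorem Om_pos {p : ℝ} (hp1 : p < 1) {n T N : ℕ} (hn : 1 ≤ n) (hT : 1 ≤ T) (hN : 1 ≤ N) :
    0 < Om p n T N := by
  unfold Om
  apply Finset.sum_pos
  · intro v _
    have h1 : 0 < xi n T N := by
      unfold xi
      have a1 : (0 : ℝ) < n := by exact_mod_cast hn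
      have a2 : (0 : ℝ) < T := by exact_mod_cast hT
      have a3 : (0 : ℝ) < N := by exact_mod_cast hN
      positivity
    have h2 : 0 < om p v := by
      unfold om
      have a1 : 0 < 1 - p := by linarith
      have a2 : (0 : ℝ) < (v.factorial : ℝ) := by exact_mod_cast Nat.factorial_pos v
      positivity
    positivity
  · exact ⟨1, by simp⟩

theorem small_bd (n T : ℕ) (ε C₀ C₁ C₉ lam s N : ℝ) (hε : 0 < ε) (hn : 1 ≤ n)
    (hlam : 1 ≤ lam) (hC₀ : 0 ≤ C₀) (hC₁ : 0 ≤ C₁) (hC₉ : 0 ≤ C₉) (hs : 0 ≤ s)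
    (hsN : s * (n : ℝ) ^ (ε / 2) ≤ N) (hN : (n : ℝ) ^ (1 / 2 + ε) ≤ N)
    (hT : (T : ℝ) ^ 8 ≤ (n : ℝ) ^ (ε / 8)) (hl8 : lam ^ 8 ≤ (n : ℝ) ^ (ε / 8))
    (hB : 1 + 2 * C₁ + C₀ + C₉ ≤ lam) :
    (T : ℝ) ^ 3 + C₁ * (s + 1) * lam ^ 2 + C₀ * s * lam + C₉ * s ≤ N := by
  have hn0 : (0 : ℝ) < n := by exact_mod_cast hn
  have hn1 : (1 : ℝ) ≤ n := by exact_mod_cast hn
  set X : ℝ := (n : ℝ) ^ (ε / 8) with hX
  have hX1 : 1 ≤ X := Real.one_le_rpow hn1 (by positivity)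
  have hX0 : 0 < X := by linarith
  have e4 : (n : ℝ) ^ (ε / 2) = X ^ 4 := by
    rw [hX, ← Real.rpow_natCast, ← Real.rpow_mul hn0.le]
    congr 1
    push_cast
    ring
  have e8 : X ^ 8 ≤ N := by
    have h1 : X ^ 8 = (n : ℝ) ^ ε := by
      rw [hX, ← Real.rpow_natCast, ← Real.rpow_mul hn0.le]
      congr 1
      push_cast
      ring
    rw [h1]
    exact le_trans (Real.rpow_le_rpow_of_exponent_le hn1 (by linarith)) hN
  rw [e4] at hsN
  have hlX : lam ≤ X := by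
    have h1 : lam ^ 1 ≤ lam ^ 8 := pow_le_pow_right₀ hlam (by norm_num)
    rw [pow_one] at h1
    linarith
  have hl2X : lam ^ 2 ≤ X := by
    have h1 : lam ^ 2 ≤ lam ^ 8 := pow_le_pow_right₀ hlam (by norm_num)
    linarith
  have hT3 : (T : ℝ) ^ 3 ≤ X := by
    rcases Nat.eq_zero_or_pos T with h0 | h0
    · rw [h0]; norm_num; linarith
    · have h1 : (1 : ℝ) ≤ T := by exact_mod_cast h0
      have h2 : (T : ℝ) ^ 3 ≤ (T : ℝ) ^ 8 := pow_le_pow_right₀ h1 (by norm_num)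
      linarith
  -- `B ≤ X`
  have hBX : 1 + 2 * C₁ + C₀ + C₉ ≤ X := by linarith
  have b1 : C₁ * (s + 1) * lam ^ 2 ≤ C₁ * (s + 1) * X :=
    mul_le_mul_of_nonneg_left hl2X (by positivity)
  have b2 : C₀ * s * lam ≤ C₀ * s * X := mul_le_mul_of_nonneg_left hlX (by positivity)
  have b3 : C₉ * s ≤ C₉ * s * X := le_mul_of_one_le_right (by positivity) hX1
  have b4 : (T : ℝ) ^ 3 + C₁ * (s + 1) * lam ^ 2 + C₀ * s * lam + C₉ * s ≤
      (1 + C₁) * X + (C₁ + C₀ + C₉) * (s * X) := by nlinarith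
  -- multiply by `X ^ 3`
  have hN0 : 0 ≤ N := le_trans (by positivity) e8
  have c1 : X ≤ N / X := by
    rw [le_div_iff₀ hX0]
    have : X * X ≤ X ^ 8 := by
      have := pow_le_pow_right₀ hX1 (show 2 ≤ 8 by norm_num)
      nlinarith
    linarith
  have c2 : s * X ≤ N / X := by
    rw [le_div_iff₀ hX0]
    have h1 : X ^ 2 ≤ X ^ 4 := pow_le_pow_right₀ hX1 (by norm_num)
    have h2 : s * X ^ 2 ≤ s * X ^ 4 := mul_le_mul_of_nonneg_left h1 hs
    nlinarith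
  have c3 : (1 + C₁) * X + (C₁ + C₀ + C₉) * (s * X) ≤ (1 + 2 * C₁ + C₀ + C₉) * (N / X) := by
    have d1 : (1 + C₁) * X ≤ (1 + C₁) * (N / X) := mul_le_mul_of_nonneg_left c1 (by positivity)
    have d2 : (C₁ + C₀ + C₉) * (s * X) ≤ (C₁ + C₀ + C₉) * (N / X) :=
      mul_le_mul_of_nonneg_left c2 (by positivity)
    nlinarith
  have c4 : (1 + 2 * C₁ + C₀ + C₉) * (N / X) ≤ X * (N / X) :=
    mul_le_mul_of_nonneg_right hBX (by positivity)
  have c5 : X * (N / X) = N := by field_simp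
  linarith

theorem SF_nonneg {p a : ℝ} (hp1 : p < 1) (n T R N c : ℕ) : 0 ≤ SF p a n T R N c := by
  unfold SF
  have h1 : 0 < 1 / (1 - p) := by
    have : 0 < 1 - p := by linarith
    positivity
  have h2 : 0 ≤ xi n T N := by unfold xi; positivity
  refine Finset.sum_nonneg (fun r _ => Finset.sum_nonneg (fun v _ => ?_))
  positivity

theorem hNIB : StNIP → StNIR → StSIZ → StNIB := by
  classical
  intro hNIP hNIR hSIZ p ε C₀ hp0 hp1 hε0 hε1 hC₀
  obtain ⟨C₉, hC₉, n1, H1⟩ := hNIP p ε C₀ hp0 hp1 hε0 hε1 hC₀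
  obtain ⟨C₁, hC₁, n2, H2⟩ := hNIR p ε hp0 hp1 hε0 hε1
  obtain ⟨n3, H3⟩ := hSIZ p ε (ε / 8) 0 hp0 hp1 hε0 hε1 (by positivity)
  set A : ℝ := 35 + 2 * C₁ + 4 * C₀ + 5 * C₉ with hA
  have hA35 : 35 ≤ A := by rw [hA]; linarith
  refine ⟨Real.exp (-A) / 2, by positivity, ?_, ?_⟩
  · have h1 : Real.exp (-A) ≤ Real.exp (-1) := Real.exp_le_exp.2 (by linarith)
    have h2 : Real.exp (-1) ≤ 1 / 2 := by
      rw [Real.exp_neg, inv_eq_one_div]
      apply one_div_le_one_div_of_le (by norm_num)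
      linarith [Real.exp_one_gt_d9]
    linarith
  refine ⟨max (max n1 n2) (max n3 ⌈Real.exp (1 + 2 * C₁ + C₀ + C₉)⌉₊), ?_⟩
  intro n T N N₀ t₀ th s K₀ P I hn hW hS hI hs hsN hN hNn hN₀ hk hNN₀ ht₀
  have hn1 : n1 ≤ n := le_trans (le_trans (le_max_left _ _) (le_max_left _ _)) hn
  have hn2 : n2 ≤ n := le_trans (le_trans (le_max_right _ _) (le_max_left _ _)) hn
  have hn3 : n3 ≤ n := le_trans (le_trans (le_max_left _ _) (le_max_right _ _)) hn
  have hn4 : ⌈Real.exp (1 + 2 * C₁ + C₀ + C₉)⌉₊ ≤ n :=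
    le_trans (le_trans (le_max_right _ _) (le_max_right _ _)) hn
  have hn4' : Real.exp (1 + 2 * C₁ + C₀ + C₉) ≤ n := le_trans (Nat.le_ceil _) (by exact_mod_cast hn4)
  have hn0 : (0 : ℝ) < n := lt_of_lt_of_le (Real.exp_pos _) hn4'
  have hnpos : 1 ≤ n := by exact_mod_cast hn0
  have hB : 1 + 2 * C₁ + C₀ + C₉ ≤ Real.log n := by
    rw [Real.le_log_iff_exp_le hn0]; exact hn4'
  have hZ := H3 n T th hn3 hW
  set lam : ℝ := Real.log n with hlamdef
  obtain ⟨hPt, hc, hK0, hKT, hPT, hsm⟩ := hS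
  have hS' : Sml p C₀ s K₀ n T P := ⟨hPt, hc, hK0, hKT, hPT, hsm⟩
  -- basic sizes
  have hlam192 : 192 ≤ lam := by
    have h1 := hZ.t0
    have h2 : (192 : ℝ) ≤ 1 / (ε / 8) := by
      rw [le_div_iff₀ (by positivity)]
      linarith
    linarith
  have hT4 : 4 ≤ T := by have := hZ.t4.1; omega
  have hT4' : (4 : ℝ) ≤ T := by exact_mod_cast hT4
  have hT0 : (0 : ℝ) < T := by linarith
  have he2 : (2.7 : ℝ) ≤ Real.exp 1 := by linarith [Real.exp_one_gt_d9]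
  have he2' : (4 : ℝ) ≤ Real.exp 2 := by
    have h1 : Real.exp 2 = Real.exp 1 * Real.exp 1 := by rw [← Real.exp_add]; norm_num
    rw [h1]; nlinarith
  have hq : 1 / Real.exp 2 ≤ 1 - p := by linarith
  have hq0 : 0 < 1 - p := lt_of_lt_of_le (by positivity) hq
  have hL0 : 0 < bb p := by
    unfold bb
    apply Real.log_pos
    rw [lt_div_iff₀ hq0]; linarith
  have hL2 : bb p ≤ 2 := by
    unfold bb
    rw [Real.log_le_iff_le_exp (by positivity), div_le_iff₀ hq0]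
    rw [div_le_iff₀ (Real.exp_pos _)] at hq
    linarith
  have hNpos : (0 : ℝ) < N := lt_of_lt_of_le (Real.rpow_pos_of_pos hn0 _) hN
  have hN1 : 1 ≤ N := by exact_mod_cast hNpos
  -- `N₀`
  have hsumI : ∑ C ∈ P \ I, C.card = N₀ := by
    have h1 := sum_card_Pt hPt
    have h2 := Finset.sum_sdiff hI (f := fun C : Finset (Fin n) => C.card)
    rw [h1] at h2
    rw [hN₀]; omega
  have hcardI : (P \ I).card = t₀ := by
    rw [Finset.card_sdiff_of_subset hI, hk]; omega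
  have hN₀le : (N₀ : ℝ) ≤ t₀ * (T + 1) := by
    have h1 : ∑ C ∈ P \ I, C.card ≤ ∑ C ∈ P \ I, (T + 1) :=
      Finset.sum_le_sum (fun C hC => hc C (Finset.sdiff_subset hC))
    rw [hsumI, Finset.sum_const, hcardI, smul_eq_mul] at h1
    exact_mod_cast h1
  have hNle : (N : ℝ) ≤ 2 * (t₀ * (T + 1)) := by
    have h1 : (N : ℝ) ≤ 2 * N₀ := by exact_mod_cast hNN₀
    linarith
  have ht0pos : 1 ≤ t₀ := by
    rcases Nat.eq_zero_or_pos t₀ with h0 | h0
    · exfalso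
      rw [h0] at hNle
      norm_num at hNle
      linarith
    · exact h0
  have ht1 : (1 : ℝ) ≤ t₀ := by exact_mod_cast ht0pos
  have ht0 : (0 : ℝ) < t₀ := by linarith
  -- `l`
  set l : ℝ := Real.log (n / (T * t₀)) with hl
  have hTt : 0 < (T : ℝ) * t₀ := by positivity
  have hexpl : Real.exp l = n / (T * t₀) := by
    rw [hl, Real.exp_log (by positivity)]
  have hll : l ≤ lam := by
    rw [hl, hlamdef]
    apply Real.log_le_log (by positivity)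
    apply div_le_self hn0.le
    nlinarith
  have hTt2 : (T : ℝ) * t₀ ≤ n * Real.exp (-A) := by
    have h1 : (t₀ : ℝ) * T ≤ (Real.exp (-A) / 2 * P.card) * T :=
      mul_le_mul_of_nonneg_right ht₀ hT0.le
    have h2 : Real.exp (-A) / 2 * ((P.card : ℝ) * T) ≤ Real.exp (-A) / 2 * (2 * n) :=
      mul_le_mul_of_nonneg_left hPT (by positivity)
    nlinarith
  have hlA : A ≤ l := by
    rw [hl, Real.le_log_iff_exp_le (by positivity), le_div_iff₀ hTt]
    have h1 : Real.exp A * (T * t₀) ≤ Real.exp A * (n * Real.exp (-A)) :=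
      mul_le_mul_of_nonneg_left hTt2 (Real.exp_pos _).le
    have h2 : Real.exp A * (n * Real.exp (-A)) = n := by
      rw [Real.exp_neg]
      field_simp
    linarith
  have hl0 : 0 ≤ l := by linarith
  -- `r`
  set r : ℝ := √(4 * l / bb p) with hr
  have hr2 : bb p * r ^ 2 = 4 * l := by
    rw [hr, Real.sq_sqrt (by positivity)]
    field_simp
  have hr0 : 0 ≤ r := Real.sqrt_nonneg _
  have hLT1 : bb p * T ≤ 2 * lam + ε / 8 * lam := by
    have := (abs_le.1 hZ.t1).2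
    linarith
  have hLT2 : 2 * lam - ε / 8 * lam ≤ bb p * T := by
    have := (abs_le.1 hZ.t1).1
    linarith
  have hεl : ε / 8 * lam ≤ 1 / 8 * lam := mul_le_mul_of_nonneg_right (by linarith) (by linarith)
  have hrT : r ≤ T := by
    rw [hr, Real.sqrt_le_iff]
    refine ⟨hT0.le, ?_⟩
    rw [div_le_iff₀ hL0]
    nlinarith
  set h : ℕ := ⌈r⌉₊ with hh
  have hhT : h ≤ T := Nat.ceil_le.2 hrT
  have hh1 : r ≤ h := Nat.le_ceil _
  have hh2 : (h : ℝ) ≤ r + 1 := (Nat.ceil_lt_add_one hr0).le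
  -- `D`
  set D : ℝ := ∑ C ∈ P \ I, ((T - C.card : ℕ) : ℝ) with hDdef
  have hD0 : 0 ≤ D := Finset.sum_nonneg (fun C _ => Nat.cast_nonneg _)
  have hDt : (t₀ : ℝ) * T - D ≤ N₀ := by
    have h1 : ∑ C ∈ P \ I, (T : ℝ) ≤ ∑ C ∈ P \ I, (((T - C.card : ℕ) : ℝ) + (C.card : ℝ)) := by
      apply Finset.sum_le_sum
      intro C _
      have : T ≤ (T - C.card) + C.card := by omega
      exact_mod_cast this
    rw [Finset.sum_const, hcardI, nsmul_eq_mul, Finset.sum_add_distrib] at h1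
    have h2 : ∑ C ∈ P \ I, (C.card : ℝ) = N₀ := by
      rw [← hsumI]; push_cast; rfl
    rw [h2] at h1
    linarith
  have hDle : D ≤ t₀ * (r + 1 + 2 * C₀) + C₀ * s := by
    have h1 := D_bd hS' hI hk hhT
    have h2 : Real.exp (-(bb p * (h : ℝ) ^ 2 / 4)) ≤ Real.exp (-l) := by
      apply Real.exp_le_exp.2
      have h3 : r ^ 2 ≤ (h : ℝ) ^ 2 := pow_le_pow_left₀ hr0 hh1 2
      have h4 : bb p * r ^ 2 ≤ bb p * (h : ℝ) ^ 2 := mul_le_mul_of_nonneg_left h3 hL0.le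
      linarith
    have h3 : K₀ * Real.exp (-(bb p * (h : ℝ) ^ 2 / 4)) ≤ 2 * t₀ := by
      have h4 : K₀ * Real.exp (-(bb p * (h : ℝ) ^ 2 / 4)) ≤ K₀ * Real.exp (-l) :=
        mul_le_mul_of_nonneg_left h2 hK0
      have h5 : K₀ * Real.exp (-l) = K₀ * T * t₀ / n := by
        rw [Real.exp_neg, hexpl, inv_div]
        ring
      have h6 : K₀ * T * t₀ / n ≤ 2 * t₀ := by
        rw [div_le_iff₀ hn0]
        have := mul_le_mul_of_nonneg_right hKT ht0.le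
        linarith
      linarith
    have h4 : C₀ * (s + K₀ * Real.exp (-(bb p * (h : ℝ) ^ 2 / 4))) ≤ C₀ * (s + 2 * t₀) :=
      mul_le_mul_of_nonneg_left (by linarith) (by linarith)
    have h5 : (t₀ : ℝ) * h ≤ t₀ * (r + 1) := mul_le_mul_of_nonneg_left hh2 ht0.le
    calc D ≤ t₀ * h + C₀ * (s + K₀ * Real.exp (-(bb p * (h : ℝ) ^ 2 / 4))) := h1
      _ ≤ t₀ * (r + 1) + C₀ * (s + 2 * t₀) := by linarith
      _ = t₀ * (r + 1 + 2 * C₀) + C₀ * s := by ring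
  -- `Λ`
  have hLam : l - 2 ≤ Real.log ((n : ℝ) / N) := by
    rw [Real.le_log_iff_exp_le (by positivity), Real.exp_sub, hexpl, div_div,
      div_le_div_iff_of_pos_left hn0 (by positivity) hNpos]
    have h1 : (T : ℝ) * t₀ * 4 ≤ T * t₀ * Real.exp 2 := mul_le_mul_of_nonneg_left he2' hTt.le
    nlinarith
  -- `N L ≤ 5 t₀ λ`
  have hNL : (N : ℝ) * bb p ≤ 5 * t₀ * lam := by
    have h1 : (N : ℝ) * bb p ≤ 2 * (t₀ * (T + 1)) * bb p := mul_le_mul_of_nonneg_right hNle hL0.le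
    have h2 : bb p * (T + 1) ≤ 5 / 2 * lam := by
      have : bb p * (T + 1) = bb p * T + bb p := by ring
      rw [this]; linarith
    have h3 : (2 * t₀ : ℝ) * (bb p * (T + 1)) ≤ 2 * t₀ * (5 / 2 * lam) :=
      mul_le_mul_of_nonneg_left h2 (by linarith)
    nlinarith
  have hsmall := small_bd n T ε C₀ C₁ C₉ lam s N hε0 hnpos (by linarith) (by linarith)
    (by linarith) (by linarith) hs hsN hN hZ.t3 hZ.t6 hB
  have hfin := main_real (bb p) lam l (Real.log ((n : ℝ) / N)) t₀ s N ((T : ℝ) ^ 3) D C₀ C₁ C₉ r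
    hL0 hL2 (by linarith) hll (by linarith) (by linarith) (by linarith) (by linarith) hLam
    ht0.le hr2 hDle hNL hsmall
  -- assemble
  have g1 := H1 n T N th 0 s K₀ P I hn1 hW hS' hI (le_refl 0) (by positivity) hs hN hNn
  have g2 := H2 n T N N₀ t₀ th s D hn2 hW hN hNn hs hD0 hDt
  have g3 : ((P.card.choose t₀ : ℕ) : ℝ) ≤ Real.exp (t₀ * (l + 2)) := by
    apply choose_bd _ _ ht0pos
    rw [hexpl]
    have h1 : 2 * (n / (T * t₀)) * t₀ = 2 * (n : ℝ) / T := by field_simp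
    rw [h1, le_div_iff₀ hT0]
    exact hPT
  have hOm : 0 < Om p n T N := Om_pos (by linarith) hnpos (by omega) hN1
  have ht : (0 : ℝ) < t₀ + s + 1 := by linarith
  have g4 : (Real.exp 1 * Om p n T N / (t₀ + s + 1)) ^ ((t₀ : ℝ) + s + 1) =
      Real.exp ((t₀ + s + 1) * Real.log (Real.exp 1 * Om p n T N / (t₀ + s + 1))) := by
    rw [Real.rpow_def_of_pos (by positivity), mul_comm]
  have g5 : ((T : ℝ) / n) ^ N₀ = Real.exp (-(N₀ * Real.log ((n : ℝ) / T))) := by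
    have h1 : Real.log ((n : ℝ) / T) = - Real.log ((T : ℝ) / n) := by
      rw [← Real.log_inv, inv_div]
    rw [h1, mul_neg, neg_neg, Real.exp_nat_mul, Real.exp_log (by positivity)]
  have g6 : (n : ℝ) ^ (-(0 : ℝ) * ((N : ℝ) - N₀)) = 1 := by simp
  unfold NB
  rw [g4, g5, g6, mul_one]
  have g7 : Real.exp ((T : ℝ) ^ 3) *
      Real.exp ((t₀ + s + 1) * Real.log (Real.exp 1 * Om p n T N / (t₀ + s + 1))) *
      Real.exp (-(N₀ * Real.log ((n : ℝ) / T))) *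
      ∏ C ∈ I, SF p 0 n T (RR ε T) N C.card ≤
      Real.exp ((T : ℝ) ^ 3) *
      Real.exp ((t₀ + s + 1) * Real.log (Real.exp 1 * Om p n T N / (t₀ + s + 1))) *
      Real.exp (-(N₀ * Real.log ((n : ℝ) / T))) * Real.exp (C₉ * (N + s)) :=
    mul_le_mul_of_nonneg_left g1 (by positivity)
  refine le_trans (mul_le_mul g3 g7 ?_ (Real.exp_pos _).le) ?_
  · have := Finset.prod_nonneg (fun C (_ : C ∈ I) =>
      SF_nonneg (p := p) (a := 0) (by linarith) n T (RR ε T) N C.card)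
    positivity
  · rw [← Real.exp_add, ← Real.exp_add, ← Real.exp_add, ← Real.exp_add]
    apply Real.exp_le_exp.2
    linarith

end Pool.Agent.Helper73.UX
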